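import Pool.Agent.Q158.Col3.Few

set_option autoImplicit false

/-!
# Most integers of any interval of length `L` follow `O(√(log L))` trajectories

The Collatz map on the integers. For every `ε > 0`, in every interval of length `L`, wherever it lies on
the real line, there are `A √(log L)` integers such that all but `ε L` integers of the interval have the
same trajectory, from the time `K log L` on, as one of these integers.

Method. One follows the odd integers of a window through `k` odd steps, where `k` is half of the
logarithm of the length of the window (to the base `e`). A point with `T` halvings moves to the window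
multiplied by `3 ^ k / 2 ^ T`. By the fine scale mixing of the offsets of the words (Tao; here the
theorem `mix` of the starting files, for the words of given size `T`) the images are equidistributed
enough in these windows: a set of small density in all residue classes modulo a small power of 3 has few
preimages. So one can go on with the shorter windows until their lengths are bounded. The final window
depends only on the total numbers `k` and `T`. The sum of the deviations of `T - 2 k` over all stages is
`O(√(log L))` for most points, because the numbers of steps of the stages decrease geometrically, and for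
each value of `T - 2 k` there are `O(1)` pairs `(k, T)`.
-/

namespace Pool.Agent.Results.MP_a1568a_nt.FewTrajectories

/-- the Collatz map on the integers -/
def C (x : ℤ) : ℤ := if x % 2 = 0 then x / 2 else 3 * x + 1

/-- For every `ε > 0` there are `A` and `K` such that for every `L ≥ 2` and every interval `[a, a + L]`
there are a set `M` of at most `A √(log L)` integers of the interval and a set `E` of at most `ε L`
integers such that for every integer `x ∉ E` of the interval there is an `m ∈ M` with
`C^t x = C^t m` for all `t ≥ K log L`. -/
theorem result (ε : ℝ) (hε : 0 < ε) : ∃ A K : ℝ, 0 < A ∧ 0 < K ∧ ∀ L : ℕ, 2 ≤ L → ∀ a : ℤ,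
    ∃ M E : Finset ℤ, (∀ m ∈ M, a ≤ m ∧ m ≤ a + L) ∧ (M.card : ℝ) ≤ A * √ (Real.log L) ∧
      (E.card : ℝ) ≤ ε * L ∧
      ∀ x : ℤ, a ≤ x → x ≤ a + L → x ∉ E →
        ∃ m ∈ M, ∀ t : ℕ, K * Real.log L ≤ t → C^[t] x = C^[t] m := by
  classical
  obtain ⟨A, K, hA, hK, hmain⟩ := Pool.Agent.Q158.Col3.few (d := 1) odd_one isCoprime_one_left ε hε
  refine ⟨A, K, hA, hK, fun L hL a => ?_⟩
  set t₀ := ⌈K * Real.log L⌉₊ with ht₀
  obtain ⟨V, hV, hE⟩ := hmain L hL t₀ (Nat.le_ceil _) a
  have hC : (Pool.Agent.Q158.Col3.Cd 1)^[t₀] = C^[t₀] := rfl
  rw [hC] at hE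
  -- representatives of the values
  set V' := ((Finset.Icc a (a + L)).image (C^[t₀])) ∩ V with hV'
  have hrep : ∀ v ∈ V', ∃ m ∈ Finset.Icc a (a + L), C^[t₀] m = v := by
    intro v hv
    rw [hV', Finset.mem_inter, Finset.mem_image] at hv
    exact hv.1
  choose! g hg1 hg2 using hrep
  refine ⟨V'.image g, (Finset.Icc a (a + L)).filter (fun x => C^[t₀] x ∉ V), ?_, ?_, hE, ?_⟩
  · intro m hm
    rw [Finset.mem_image] at hm
    obtain ⟨v, hv, rfl⟩ := hm
    exact Finset.mem_Icc.1 (hg1 v hv)
  · refine le_trans ?_ hV
    have h1 : (V'.image g).card ≤ V.card :=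
      Finset.card_image_le.trans (Finset.card_le_card Finset.inter_subset_right)
    exact_mod_cast h1
  · intro x hx1 hx2 hxE
    have hxI : x ∈ Finset.Icc a (a + L) := Finset.mem_Icc.2 ⟨hx1, hx2⟩
    have hxV : C^[t₀] x ∈ V := by
      by_contra h
      exact hxE (Finset.mem_filter.2 ⟨hxI, h⟩)
    have hxV' : C^[t₀] x ∈ V' := Finset.mem_inter.2 ⟨Finset.mem_image_of_mem _ hxI, hxV⟩
    refine ⟨g (C^[t₀] x), Finset.mem_image_of_mem _ hxV', fun t ht => ?_⟩
    have hle : t₀ ≤ t := Nat.ceil_le.2 ht
    obtain ⟨s, rfl⟩ := Nat.exists_eq_add_of_le hle
    rw [Nat.add_comm, Function.iterate_add_apply, Function.iterate_add_apply, hg2 _ hxV']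

end Pool.Agent.Results.MP_a1568a_nt.FewTrajectories
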