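import Mathlib
import Pool.Agent.Q205.RP.Verify2

/-!
# The logarithmic bound after a finite verification

`T` is the `3x+1` function; for `ω : ℤ → {0, 1}` let `U ω n = T (n + ω n)` (`ω = 0` gives `T`).
Suppose that all `n ≤ N` reach `1` under `U g`, inside a finite set `D` of places (for `g = 0`: the
verification of the `3x+1` conjecture up to `N`). Among all `ω` that agree with `g` on `D` the
proportion of those for which the total stopping time is not `O(log n)` is at most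
`exp (- exp (c √(log N)))`.
-/

set_option autoImplicit false

open MeasureTheory Finset

namespace Pool.Agent.Results.MP_a1568a_nt.LogBoundAfterVerification

/-- The `3x+1` function. -/
def T (x : ℤ) : ℤ := if x % 2 = 0 then x / 2 else (3 * x + 1) / 2

/-- The perturbed map. -/
def U (ω : ℤ → Fin 2) (x : ℤ) : ℤ := T (x + ((ω x : ℕ) : ℤ))

/-- The law of independent fair coins, one for each integer. -/
noncomputable def coins : Measure (ℤ → Fin 2) :=
  Measure.infinitePi (fun _ : ℤ => (PMF.uniformOfFintype (Fin 2)).toMeasure)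

/-- Every `n ≥ 2` reaches `1` within `c log n` steps. -/
def LogBound (f : ℤ → ℤ) : Prop :=
  ∃ c : ℝ, ∀ n : ℤ, 2 ≤ n → ∃ k : ℕ, (k : ℝ) ≤ c * Real.log n ∧ f^[k] n = 1

theorem main : ∃ c : ℝ, 0 < c ∧ ∃ N₀ : ℕ, ∀ N : ℕ, N₀ ≤ N → ∀ (D : Finset ℤ) (g : ℤ → Fin 2),
    (∀ n : ℤ, 1 ≤ n → n ≤ N → n ∈ D) → (∀ n ∈ D, U g n ∈ D) →
    (∀ n ∈ D, ∃ k : ℕ, (U g)^[k] n = 1) →
    coins {ω | (∀ n ∈ D, ω n = g n) ∧ ¬ LogBound (U ω)} ≤
      ENNReal.ofReal (Real.exp (-Real.exp (c * Real.sqrt (Real.log N)))) *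
        coins {ω | ∀ n ∈ D, ω n = g n} := by
  have hG := Q205.RP.lin_tab (a := 3) (b := 1) (by norm_num) (by norm_num)
  obtain ⟨c, hc, N₀, h⟩ := Q205.RP.main_verify (q := 3) (E := 1) _ (by norm_num) (by norm_num)
    (by norm_num) (fun i => by
      fin_cases i
      · exact ⟨0, by norm_num, by simp⟩
      · exact ⟨1, by norm_num, by simp⟩) (Q205.RP.RR_ge _ _) hG (by
      rw [Fin.prod_univ_two]
      simp
      norm_num)
  refine ⟨c, hc, N₀, fun N hN D g hD1 hD2 hD3 => ?_⟩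
  have hU : ∀ ω, Q205.RP.Tn (fun (x : ℤ) (c : Fin 2) => Q205.RP.tab 3 1 (x + ((c : ℕ) : ℤ))) ω =
      U ω := fun ω => rfl
  have h1 := h N hN D g {z | 1 ≤ z} (by
    intro z hz a
    have ha : (0 : ℤ) ≤ ((a : ℕ) : ℤ) := by positivity
    simp only [Set.mem_ofPred_eq] at hz ⊢
    unfold Q205.RP.tab
    split_ifs <;> omega) (by
    intro z hz hzN
    simp only [Set.mem_ofPred_eq] at hz
    rw [abs_of_nonneg (by omega)] at hzN
    exact hD1 z hz hzN)
  have hcoins : coins = Q205.RP.P 2 := rfl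
  rw [hcoins]
  refine (measure_mono ?_).trans h1
  rintro ω ⟨hω, hlog⟩
  refine ⟨?_, hω⟩
  rintro ⟨K, hK⟩
  apply hlog
  -- the time inside `D`
  choose! k hk using hD3
  set B : ℕ := D.sup k with hB
  have hl2 : 0 < Real.log 2 := Real.log_pos (by norm_num)
  refine ⟨2 * |K| + B / Real.log 2, fun n hn => ?_⟩
  have hnR : (2 : ℝ) ≤ n := by exact_mod_cast hn
  obtain ⟨j, hj1, hj2⟩ := hK n (show (1 : ℤ) ≤ n by omega)
  rw [hU] at hj2
  set y := (U ω)^[j] n with hy
  have hit := Q205.RP.iter_eq (fun (x : ℤ) (c : Fin 2) => Q205.RP.tab 3 1 (x + ((c : ℕ) : ℤ)))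
    ω g D hω (fun s hs => hD2 s hs) hj2 (k y)
  rw [hU, hU] at hit
  refine ⟨k y + j, ?_, ?_⟩
  · have h2 : (k y : ℝ) ≤ B := by exact_mod_cast Finset.le_sup hj2
    have h3 : Real.log 2 ≤ Real.log n := Real.log_le_log (by norm_num) hnR
    have h4 : Real.log (2 + |(n : ℝ)|) ≤ 2 * Real.log n := by
      rw [abs_of_nonneg (by linarith)]
      have : 2 * Real.log n = Real.log ((n : ℝ) ^ 2) := by
        rw [Real.log_pow]
        norm_num
      rw [this]
      apply Real.log_le_log (by linarith)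
      nlinarith
    have h5 : K * Real.log (2 + |(n : ℝ)|) ≤ |K| * (2 * Real.log n) := by
      have h6 : 0 ≤ Real.log (2 + |(n : ℝ)|) := Real.log_nonneg (by linarith [abs_nonneg (n : ℝ)])
      calc K * Real.log (2 + |(n : ℝ)|) ≤ |K| * Real.log (2 + |(n : ℝ)|) :=
            mul_le_mul_of_nonneg_right (le_abs_self K) h6
        _ ≤ _ := mul_le_mul_of_nonneg_left h4 (abs_nonneg K)
    have h7 : (B : ℝ) ≤ B / Real.log 2 * Real.log n := by
      rw [div_mul_eq_mul_div, le_div_iff₀ hl2]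
      exact mul_le_mul_of_nonneg_left h3 (Nat.cast_nonneg B)
    push_cast
    rw [add_mul]
    nlinarith
  · rw [Function.iterate_add_apply, ← hy, hit.1]
    exact hk y hj2

/-- the choice `n mod 2` makes every trajectory decrease to `1` -/
theorem decreasing (n : ℤ) (hn : 1 ≤ n) :
    ∃ k : ℕ, (U (fun x => Q205.RP.res 2 x))^[k] n = 1 := by
  have hstep : ∀ x : ℤ, U (fun x => Q205.RP.res 2 x) x = (x + x % 2) / 2 := by
    intro x
    unfold U T
    have h1 := Q205.RP.res_cast (d := 2) x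
    push_cast at h1
    rw [h1]
    rw [if_pos (by omega)]
  obtain ⟨b, rfl⟩ : ∃ b : ℕ, n = b := ⟨n.toNat, by omega⟩
  induction b using Nat.strong_induction_on with
  | _ b ih =>
    rcases Nat.lt_or_ge b 2 with h | h
    · exact ⟨0, by simp only [Function.iterate_zero, id_eq]; omega⟩
    · obtain ⟨k, hk⟩ := ih ((b + b % 2) / 2) (by omega) (by push_cast; omega)
      refine ⟨k + 1, ?_⟩
      rw [Function.iterate_succ_apply, hstep]
      push_cast at hk
      exact hk

/-- **Theorem.** The bound for the conditional probability, for every `g`; in particular the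
logarithmic bound holds for a set of `ω` of positive measure. -/
theorem result : (∃ c : ℝ, 0 < c ∧ ∃ N₀ : ℕ, ∀ N : ℕ, N₀ ≤ N →
    ∀ (D : Finset ℤ) (g : ℤ → Fin 2),
    (∀ n : ℤ, 1 ≤ n → n ≤ N → n ∈ D) → (∀ n ∈ D, U g n ∈ D) →
    (∀ n ∈ D, ∃ k : ℕ, (U g)^[k] n = 1) →
    coins {ω | (∀ n ∈ D, ω n = g n) ∧ ¬ LogBound (U ω)} ≤
      ENNReal.ofReal (Real.exp (-Real.exp (c * Real.sqrt (Real.log N)))) *
        coins {ω | ∀ n ∈ D, ω n = g n}) ∧
    0 < coins {ω | LogBound (U ω)} := by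
  refine ⟨main, ?_⟩
  obtain ⟨c, hc, N₀, h⟩ := main
  set g : ℤ → Fin 2 := fun x => Q205.RP.res 2 x with hg
  set D : Finset ℤ := Finset.Icc 1 (N₀ : ℤ) with hD
  have h1 := h N₀ le_rfl D g (fun n h1 h2 => Finset.mem_Icc.2 ⟨h1, h2⟩) (by
    intro n hn
    rw [hD, Finset.mem_Icc] at hn ⊢
    have h1 := Q205.RP.res_cast (d := 2) n
    push_cast at h1
    show 1 ≤ U g n ∧ U g n ≤ N₀
    unfold U T
    rw [hg, h1, if_pos (by omega)]
    omega) (fun n hn => decreasing n (Finset.mem_Icc.1 hn).1)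
  set A := coins {ω | ∀ n ∈ D, ω n = g n} with hA
  have hApos : 0 < A := by
    rw [hA]
    have h2 : coins {ω | ∀ n ∈ D, ω n = g n} = (((2 : ℕ) : ENNReal)⁻¹) ^ D.card :=
      Q205.RP.cyl D g
    rw [h2]
    apply ENNReal.pow_pos
    rw [ENNReal.inv_pos]
    exact ENNReal.natCast_ne_top 2
  have hAfin : A ≠ ⊤ := by
    have : IsProbabilityMeasure coins := inferInstanceAs (IsProbabilityMeasure (Q205.RP.P 2))
    exact measure_ne_top _ _
  by_contra hcon
  have hzero : coins {ω | LogBound (U ω)} = 0 := by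
    simpa using hcon
  have h2 : A ≤ coins {ω | LogBound (U ω)} +
      coins {ω | (∀ n ∈ D, ω n = g n) ∧ ¬ LogBound (U ω)} := by
    refine (measure_mono ?_).trans (measure_union_le _ _)
    intro ω hω
    by_cases hl : LogBound (U ω)
    · exact Or.inl hl
    · exact Or.inr ⟨hω, hl⟩
  rw [hzero, zero_add] at h2
  have h3 : Real.exp (-Real.exp (c * Real.sqrt (Real.log N₀))) < 1 := by
    rw [Real.exp_lt_one_iff]
    linarith [Real.exp_pos (c * Real.sqrt (Real.log N₀))]
  have h4 : ENNReal.ofReal (Real.exp (-Real.exp (c * Real.sqrt (Real.log N₀)))) < 1 := by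
    rw [← ENNReal.ofReal_one]
    exact (ENNReal.ofReal_lt_ofReal_iff one_pos).2 h3
  have h5 : ENNReal.ofReal (Real.exp (-Real.exp (c * Real.sqrt (Real.log N₀)))) * A < 1 * A :=
    (ENNReal.mul_lt_mul_iff_left hApos.ne' hAfin).2 h4
  rw [one_mul] at h5
  exact absurd (h2.trans h1) (not_le.2 h5)

end Pool.Agent.Results.MP_a1568a_nt.LogBoundAfterVerification
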