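import Mathlib
import Pool.Agent.Q263.MD.Fin

/-!
The Collatz map on the integers with restricted digits in an odd base.
-/

set_option autoImplicit false

open Finset

namespace Pool.Agent.Results.MP_a1568a_nt.MissingDigits

/-- The Collatz map. -/
def Col (n : ℕ) : ℕ := if n % 2 = 0 then n / 2 else 3 * n + 1

/-- The shortcut form of the Collatz map. -/
def T (n : ℕ) : ℕ := if n % 2 = 0 then n / 2 else (3 * n + 1) / 2

/-- The integers less than `b ^ k` whose `i`-th digit in base `b` belongs to `D i` for `i < k`. -/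
def Dig (b k : ℕ) (D : Fin k → Finset ℕ) : Finset ℕ :=
  (range (b ^ k)).filter (fun n => ∀ i : Fin k, n / b ^ (i : ℕ) % b ∈ D i)

/-- `D` consists of `k` sets of digits in base `b`, each with at least two elements. -/
def Digits (b k : ℕ) (D : Fin k → Finset ℕ) : Prop :=
  (∀ i, ∀ d ∈ D i, d < b) ∧ ∀ i, 2 ≤ (D i).card

/-- The first `t` terms of the trajectory of `n` under `T` follow `(√3 / 2) ^ j n` up to the factor
`2 exp (η t)`. -/
def Prof (η : ℝ) (t n : ℕ) : Prop := ∀ j ≤ t,
  Real.exp (-(η * t)) * ((√3 / 2) ^ j * n) ≤ T^[j] n ∧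
    (T^[j] n : ℝ) ≤ 2 * Real.exp (η * t) * ((√3 / 2) ^ j * n)

/-- The Collatz orbit of `n` has a term which is at most `n ^ s`. -/
def Low (s : ℝ) (n : ℕ) : Prop := ∃ j : ℕ, (Col^[j] n : ℝ) ≤ (n : ℝ) ^ s

open Classical in
/-- **The Collatz map on integers with restricted digits.** Let `b > 1` be odd. The constants below
depend only on `b` and on `ε`, `η`, and not on `k` nor on the sets of digits `D`.
(1) The integers with restricted digits are equidistributed up to the factor `K q ^ ε` in the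
residue classes modulo every `q ≤ b ^ (k / B)` which is coprime to `b`, in particular modulo `2 ^ t`.
(2) All but at most `C |Dig| ^ (1 - c)` of them follow the expected profile for the first `k / B`
steps.
(3) All but at most `C |Dig| ^ (1 - c)` of them have a term `≤ n ^ (1 - c)` in their Collatz
orbit. -/
theorem result (b : ℕ) (hb : 1 < b) (hodd : Odd b) :
    (∀ ε : ℝ, 0 < ε → ∃ (B : ℕ) (K : ℝ), 1 ≤ B ∧ ∀ (k : ℕ) (D : Fin k → Finset ℕ), Digits b k D →
      ∀ q : ℕ, 1 ≤ q → Nat.Coprime b q → q ^ B ≤ b ^ k → ∀ r : ℕ,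
        (((Dig b k D).filter (fun n => n ≡ r [MOD q])).card : ℝ) ≤
          K * (q : ℝ) ^ ε * ((Dig b k D).card / q)) ∧
    (∀ η : ℝ, 0 < η → ∃ (B : ℕ) (c C : ℝ), 1 ≤ B ∧ 0 < c ∧ c < 1 ∧
      ∀ (k : ℕ) (D : Fin k → Finset ℕ), Digits b k D →
        (((Dig b k D).filter (fun n => ¬ Prof η (k / B) n)).card : ℝ) ≤
          C * ((Dig b k D).card : ℝ) ^ (1 - c)) ∧
    ∃ c C : ℝ, 0 < c ∧ c < 1 ∧ ∀ (k : ℕ) (D : Fin k → Finset ℕ), Digits b k D →
      (((Dig b k D).filter (fun n => ¬ Low (1 - c) n)).card : ℝ) ≤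
        C * ((Dig b k D).card : ℝ) ^ (1 - c) := by
  have hT : T = Pool.Agent.Y927.CP.T := rfl
  have hCol : Col = Pool.Agent.Y927.CP.Col := rfl
  have hDig : Dig = Pool.Agent.Q263.MD.Dig := rfl
  refine ⟨fun ε hε => ?_, fun η hη => ?_, ?_⟩
  · obtain ⟨B, K, hB, h⟩ := Pool.Agent.Q263.MD.equi (b := b) hb ε hε
    exact ⟨B, K, hB, fun k D hD q hq hc hqk r => h q hq hc k hqk D hD.1 hD.2 r⟩
  · obtain ⟨B, c, C, hB, hc, hc1, -, h⟩ := Pool.Agent.Q263.MD.profile (b := b) hb hodd η hη
    refine ⟨B, c, C, hB, hc, by linarith, fun k D hD => ?_⟩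
    refine le_trans (le_of_eq ?_) (h k D hD.1 hD.2)
    apply congrArg
    apply congrArg
    apply Finset.filter_congr
    intro n _
    rfl
  · obtain ⟨c, C, hc, hc1, h⟩ := Pool.Agent.Q263.MD.descent (b := b) hb hodd
    refine ⟨c, C, hc, by linarith, fun k D hD => ?_⟩
    refine le_trans (le_of_eq ?_) (h k D hD.1 hD.2)
    apply congrArg
    apply congrArg
    apply Finset.filter_congr
    intro n _
    rfl

end Pool.Agent.Results.MP_a1568a_nt.MissingDigits
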