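import Mathlib
import Pool.Agent.Q74.SP.SC3

set_option autoImplicit false

/-!
The asymptotics of the number of `n ≤ x` with total stopping time `k` under the `3x+1` map: an
oscillating local limit theorem.
-/

namespace Pool.Agent.Results.MP_a1568a_nt.OscillatingLocalLimit

open Finset Filter Topology MeasureTheory

/-- the `3x+1` map -/
def T (n : ℕ) : ℕ := if n % 2 = 0 then n / 2 else (3 * n + 1) / 2

/-- `n` reaches `1` -/
def Reaches (n : ℕ) : Prop := ∃ k : ℕ, T^[k] n = 1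

/-- the total stopping time (of an `n` that reaches `1`) -/
noncomputable def sigma (n : ℕ) : ℕ := sInf {k : ℕ | T^[k] n = 1}

/-- the number of odd terms of the trajectory of `n` before `1` is reached -/
noncomputable def odds (n : ℕ) : ℕ := ((range (sigma n)).filter fun i => T^[i] n % 2 = 1).card

/-- the logarithm of the residue `2 ^ σ(n) / (3 ^ odds(n) n)` of `n` -/
noncomputable def logRes (n : ℕ) : ℝ := sigma n * Real.log 2 - odds n * Real.log 3 - Real.log n

open Classical in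
/-- the number of the positive integers `n ≤ N` that reach `1` with `a ≤ logRes n` -/
noncomputable def R (N : ℕ) (a : ℝ) : ℕ := ((Icc 1 N).filter fun n => Reaches n ∧ a ≤ logRes n).card

/-- the number of all positive integers `n` with total stopping time `k`, exactly `o` odd terms before
`1`, and `a ≤ logRes n` -/
noncomputable def Z (k o : ℕ) (a : ℝ) : ℕ :=
  {n : ℕ | 0 < n ∧ Reaches n ∧ sigma n = k ∧ odds n = o ∧ a ≤ logRes n}.ncard

open Classical in
/-- the number of the positive integers `n ≤ x` with total stopping time `k` -/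
noncomputable def W (x : ℝ) (k : ℕ) : ℕ := ((Icc 1 ⌊x⌋₊).filter fun n => Reaches n ∧ sigma n = k).card

/-- `1 / 3 < saw u ≤ 1`, of period `log 3`, equal to `e ^ u` for `- log 3 < u ≤ 0` -/
noncomputable def saw (u : ℝ) : ℝ := Real.exp (u - Real.log 3 * ⌈u / Real.log 3⌉)

/-- the periodic factor -/
noncomputable def Theta (ν : Measure ℝ) (u : ℝ) : ℝ := ∫ r, saw (u - r) ∂ν

theorem T_cast (n : ℕ) : Pool.Agent.Q74.SP.T (n : ℤ) = (T n : ℤ) := by
  unfold Pool.Agent.Q74.SP.T T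
  split_ifs <;> omega

theorem iter_cast (k n : ℕ) : Pool.Agent.Q74.SP.T^[k] (n : ℤ) = (T^[k] n : ℤ) := by
  induction k with
  | zero => rfl
  | succ k ih => rw [Function.iterate_succ_apply', Function.iterate_succ_apply', ih, T_cast]

theorem mem_iff (k n : ℕ) : Pool.Agent.Q74.SP.T^[k] (n : ℤ) ∈ ({1} : Finset ℤ) ↔ T^[k] n = 1 := by
  rw [iter_cast, mem_singleton]
  exact_mod_cast Iff.rfl

theorem meets_iff (n : ℕ) : Pool.Agent.Q74.SP.Meets {1} (n : ℤ) ↔ Reaches n := by
  unfold Pool.Agent.Q74.SP.Meets Reaches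
  simp only [mem_iff]

theorem time_eq (n : ℕ) : Pool.Agent.Q74.SP.time {1} (n : ℤ) = sigma n := by
  unfold Pool.Agent.Q74.SP.time sigma
  simp only [mem_iff]

theorem odds_eq (k n : ℕ) : Pool.Agent.Q74.SP.odds k (n : ℤ) = ((range k).filter fun i => T^[i] n % 2 = 1).card := by
  unfold Pool.Agent.Q74.SP.odds
  congr 1
  apply filter_congr
  intro i _
  rw [iter_cast]
  omega

theorem lr_eq (n : ℕ) : Pool.Agent.Q74.SP.lr {1} (n : ℤ) = logRes n := by
  unfold Pool.Agent.Q74.SP.lr logRes odds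
  rw [time_eq, odds_eq, Int.cast_natCast]

theorem grow (n k : ℕ) : 3 ^ ((range k).filter fun i => T^[i] n % 2 = 1).card * n ≤ 2 ^ k * T^[k] n := by
  induction k with
  | zero => simp
  | succ k ih =>
    rw [Function.iterate_succ_apply', range_add_one, filter_insert]
    set m := T^[k] n with hm
    by_cases h : m % 2 = 1
    · rw [if_pos h, card_insert_of_notMem (by simp)]
      have h2 : 3 * m ≤ 2 * T m := by
        unfold T
        rw [if_neg (by omega)]
        omega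
      calc 3 ^ (((range k).filter fun i => T^[i] n % 2 = 1).card + 1) * n
          = 3 * (3 ^ ((range k).filter fun i => T^[i] n % 2 = 1).card * n) := by ring
        _ ≤ 3 * (2 ^ k * m) := Nat.mul_le_mul_left _ ih
        _ = 2 ^ k * (3 * m) := by ring
        _ ≤ 2 ^ k * (2 * T m) := Nat.mul_le_mul_left _ h2
        _ = 2 ^ (k + 1) * T m := by ring
    · rw [if_neg h]
      have h2 : m = 2 * T m := by
        unfold T
        rw [if_pos (by omega)]
        omega
      calc _ ≤ 2 ^ k * m := ih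
        _ = 2 ^ k * (2 * T m) := by rw [← h2]
        _ = 2 ^ (k + 1) * T m := by ring

theorem logRes_nonneg {n : ℕ} (hn : 1 ≤ n) (h : Reaches n) : 0 ≤ logRes n := by
  have h1 : T^[sigma n] n = 1 := Nat.sInf_mem (s := {k : ℕ | T^[k] n = 1}) h
  have h2 := grow n (sigma n)
  rw [h1, mul_one] at h2
  have h3 : (3 : ℝ) ^ odds n * n ≤ 2 ^ sigma n := by exact_mod_cast h2
  have hnR : (0 : ℝ) < n := by exact_mod_cast hn
  have h4 := Real.log_le_log (by positivity) h3
  rw [Real.log_mul (by positivity) hnR.ne', Real.log_pow, Real.log_pow] at h4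
  unfold logRes
  linarith

/-- There is a finite measure `ν ≠ 0` without point masses on a bounded interval `[0, A]`, the limit law
of the logarithms of the residues `2 ^ σ / (3 ^ odds n)`, such that:
(1) the proportion of the `n ≤ N` that reach `1` with `logRes n ≥ a` tends to `ν [a, ∞)`;
(2) (local limit theorem with residues) for `|2 o - k| ≤ K √k` and all real `a`,
`√k 3^o/2^k Z(k, o, a) = log (4/3) / √(2 π) ∫_{r ≥ a} e^(-r) dν(r) exp(-(2 o - k)²/(2 k)) + o(1)`,
uniformly;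
(3) `Θ(u) = ∫ saw (u - r) dν(r)` is continuous, of period `log 3`, with values in `[δ/3, δ]`, `δ` the
mass of `ν` (the density of the integers that reach `1`);
(4) (oscillating local limit theorem) for real `x > 0` with `|k log (4/3) - 2 log x| ≤ K √k`,
`√k / x W(x, k) = 3/2 log (4/3) / √(2 π) exp(-(k log (4/3) - 2 log x)²/(2 k (log 3)²))
Θ(k log 2 - log x) + o(1)` as `k → ∞`, uniformly. -/
theorem result : ∃ (ν : Measure ℝ) (A : ℝ), IsFiniteMeasure ν ∧ ν (Set.Icc 0 A)ᶜ = 0 ∧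
    0 < ν.real Set.univ ∧ (∀ r, ν {r} = 0) ∧
    (∀ a : ℝ, Tendsto (fun N : ℕ => (R N a : ℝ) / N) atTop (𝓝 (ν.real (Set.Ici a)))) ∧
    (∀ K ε : ℝ, 0 < ε → ∃ k0 : ℕ, ∀ k o : ℕ, k0 ≤ k → |2 * (o : ℝ) - k| ≤ K * √k → ∀ a : ℝ,
      |√k * (Z k o a * 3 ^ o / 2 ^ k) - Real.log (4 / 3) / √(2 * Real.pi) *
        (∫ r in Set.Ici a, Real.exp (-r) ∂ν) * Real.exp (-(2 * (o : ℝ) - k) ^ 2 / (2 * k))| ≤ ε) ∧
    Continuous (Theta ν) ∧ (∀ u, Theta ν (u + Real.log 3) = Theta ν u) ∧
    (∀ u, ν.real Set.univ / 3 ≤ Theta ν u ∧ Theta ν u ≤ ν.real Set.univ) ∧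
    ∀ K ε : ℝ, 0 < ε → ∃ k0 : ℕ, ∀ k : ℕ, k0 ≤ k → ∀ x : ℝ, 0 < x →
      |k * Real.log (4 / 3) - 2 * Real.log x| ≤ K * √k →
      |√k / x * W x k - 3 / 2 * (Real.log (4 / 3) / √(2 * Real.pi)) *
        Real.exp (-(k * Real.log (4 / 3) - 2 * Real.log x) ^ 2 / (2 * k * Real.log 3 ^ 2)) *
        Theta ν (k * Real.log 2 - Real.log x)| ≤ ε := by
  classical
  have hs : (1 : ℤ) = 1 ∨ (1 : ℤ) = -1 := Or.inl rfl
  obtain ⟨ν, A0, hν, hA0, hna, hlaw⟩ := Pool.Agent.Q74.SP.law_cont hs {1}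
  obtain ⟨A1, hA1pos, hA1⟩ := Pool.Agent.Q74.SP.lr_bdd {1}
  set A := max A0 A1 with hAdef
  have hA : ν (Set.Icc (-A) A)ᶜ = 0 := by
    refine measure_mono_null ?_ hA0
    apply Set.compl_subset_compl.2
    exact Set.Icc_subset_Icc (neg_le_neg (le_max_left _ _)) (le_max_left _ _)
  have hAl : ∀ x, x ≠ 0 → Pool.Agent.Q74.SP.Meets {1} x → |Pool.Agent.Q74.SP.lr {1} x| ≤ A :=
    fun x h1 h2 => (hA1 x h1 h2).trans (le_max_right _ _)
  have hApos : 0 ≤ A := hA1pos.le.trans (le_max_right _ _)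
  have hcast : ∀ n : ℕ, ((1 : ℤ) * (n : ℤ)) = (n : ℤ) := fun n => one_mul _
  have htheta : Theta ν = Pool.Agent.Q74.SP.Thet ν := by
    funext u
    unfold Theta Pool.Agent.Q74.SP.Thet
    congr 1
    funext r
    unfold saw Pool.Agent.Q74.SP.tht
    have h3 : Real.log 3 ≠ 0 := (Real.log_pos (by norm_num)).ne'
    congr 1
    field_simp
  have hW : ∀ (x : ℝ) (k : ℕ), W x k = Pool.Agent.Q74.SP.WW 1 {1} x k := by
    intro x k
    unfold W Pool.Agent.Q74.SP.WW
    congr 1
    apply filter_congr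
    intro n _
    rw [hcast, meets_iff, time_eq]
  have hZ : ∀ (k o : ℕ) (a : ℝ), (Z k o a : ℝ) = Pool.Agent.Q74.SP.NR 1 {1} k o a := by
    intro k o a
    unfold Z Pool.Agent.Q74.SP.NR
    congr 1
    have h1 : Pool.Agent.Q74.SP.RS 1 {1} k o a = (fun n : ℕ => (n : ℤ)) ''
        {n : ℕ | 0 < n ∧ Reaches n ∧ sigma n = k ∧ odds n = o ∧ a ≤ logRes n} := by
      ext y
      unfold Pool.Agent.Q74.SP.RS
      rw [Set.mem_ofPred_eq, Set.mem_image]
      constructor
      · rintro ⟨h0, hm, ht, ho, ha⟩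
        rw [one_mul] at h0
        obtain ⟨n, rfl⟩ := Int.eq_ofNat_of_zero_le h0.le
        rw [meets_iff] at hm
        rw [time_eq] at ht
        rw [lr_eq] at ha
        rw [odds_eq, ← ht] at ho
        exact ⟨n, ⟨by exact_mod_cast h0, hm, ht, by exact_mod_cast ho, ha⟩, rfl⟩
      · rintro ⟨n, ⟨h0, hm, ht, ho, ha⟩, rfl⟩
        refine ⟨by rw [one_mul]; exact_mod_cast h0, (meets_iff n).2 hm, by rw [time_eq, ht], ?_, by rwa [lr_eq]⟩
        rw [odds_eq, ← ht]
        exact_mod_cast ho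
    rw [h1, Set.ncard_image_of_injective]
    intro a b hab
    have h9 : (a : ℤ) = (b : ℤ) := hab
    exact_mod_cast h9
  refine ⟨ν, A, hν, ?_, ?_, fun r => Pool.Agent.Q74.SP.NoAtoms.point hna r, ?_, ?_, ?_, ?_, ?_, ?_⟩
  · apply Pool.Agent.Q74.SP.law_supp hA hlaw
    intro n hn hm
    rw [hcast] at hm ⊢
    rw [lr_eq]
    exact logRes_nonneg hn ((meets_iff n).1 hm)
  · exact Pool.Agent.Q74.SP.mass_pos hs hlaw ⟨1, by simp, by norm_num, by norm_num⟩
  · intro a
    have h1 := Pool.Agent.Q74.SP.law_cdf hA hna hlaw a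
    refine h1.congr fun N => ?_
    unfold R
    congr 3
    apply filter_congr
    intro n _
    rw [hcast, meets_iff, lr_eq]
  · intro K ε hε
    obtain ⟨k0, hk0⟩ := Pool.Agent.Q74.SP.LL_unif hs hA hna hlaw K ε hε
    refine ⟨k0, fun k o hk ho a => ?_⟩
    have h1 := hk0 k o hk (by exact_mod_cast ho) a
    rw [← hZ, Pool.Agent.Q74.SP.kappa_eq, zpow_natCast] at h1
    exact_mod_cast h1
  · rw [htheta]
    exact Pool.Agent.Q74.SP.thet_cont hna
  · intro u
    rw [htheta]
    exact Pool.Agent.Q74.SP.thet_per u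
  · intro u
    rw [htheta]
    exact ⟨Pool.Agent.Q74.SP.thet_ge u, Pool.Agent.Q74.SP.thet_le u⟩
  · intro K ε hε
    obtain ⟨k0, hk0⟩ := Pool.Agent.Q74.SP.sharp hs hApos hA hAl hna hlaw (abs_nonneg K) hε
    refine ⟨k0, fun k hk x hx hxk => ?_⟩
    have h1 := hk0 k hk x hx (hxk.trans (mul_le_mul_of_nonneg_right (le_abs_self K) (Real.sqrt_nonneg _)))
    rw [Pool.Agent.Q74.SP.kappa_eq] at h1
    rw [hW, htheta]
    exact h1

end Pool.Agent.Results.MP_a1568a_nt.OscillatingLocalLimit
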